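import Pool.Agent.Lib.MP_0e3b4a_gt.Iface

/-! # CONC: concatenation and reversal of controls -/

set_option autoImplicit false

namespace Pool.Agent.CutLoci.H82

open MeasureTheory Set Filter Topology

/-- Affine maps are quasi measure preserving. -/
theorem qmp (c d : ℝ) (hd : d ≠ 0) :
    Measure.QuasiMeasurePreserving (fun t : ℝ => c + d * t) volume volume := by
  have h1 : Measure.QuasiMeasurePreserving (fun t : ℝ => d * t) volume volume := by
    refine ⟨measurable_const_mul d, ?_⟩
    rw [Real.map_volume_mul_left hd]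
    exact Measure.smul_absolutelyContinuous
  exact (measurePreserving_add_left volume c).quasiMeasurePreserving.comp h1

/-- Square integrability under affine maps. -/
theorem memLp_affine {E : Type} [NormedAddCommGroup E] {f : ℝ → E} (hf : MemLp f 2 volume)
    (c d : ℝ) (hd : d ≠ 0) : MemLp (fun t => f (c + d * t)) 2 volume := by
  have hm : AEStronglyMeasurable (fun t => f (c + d * t)) volume :=
    hf.1.comp_quasiMeasurePreserving (qmp c d hd)
  rw [memLp_two_iff_integrable_sq_norm hm]
  have h0 : Integrable (fun x => ‖f x‖ ^ 2) volume :=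
    (memLp_two_iff_integrable_sq_norm hf.1).1 hf
  exact (h0.comp_add_left c).comp_mul_left' hd

/-- Iterated integrals only depend on the class of the control. -/
theorem iter_congr {r : ℕ} {A : Type} [NormedRing A] [NormedAlgebra ℝ A] (R : EE r →L[ℝ] A)
    {u v : ℝ → EE r} (h : u =ᵐ[volume.restrict (Ioc (0 : ℝ) 1)] v) (k : ℕ) :
    ∀ t ∈ Icc (0 : ℝ) 1, iter R u k t = iter R v k t := by
  induction k with
  | zero => intro t _; rfl
  | succ k ih =>
    intro t ht
    simp only [iter]
    apply intervalIntegral.integral_congr_ae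
    have h' := (ae_restrict_iff' (measurableSet_Ioc (a := (0 : ℝ)) (b := 1))).1 h
    filter_upwards [h'] with s hs hst
    rw [uIoc_of_le ht.1] at hst
    rw [ih s ⟨hst.1.le, hst.2.trans ht.2⟩, hs ⟨hst.1, hst.2.trans ht.2⟩]

theorem flow_congr {r : ℕ} {A : Type} [NormedRing A] [NormedAlgebra ℝ A] (R : EE r →L[ℝ] A)
    (N : ℕ) {u v : ℝ → EE r} (h : u =ᵐ[volume.restrict (Ioc (0 : ℝ) 1)] v) :
    ∀ t ∈ Icc (0 : ℝ) 1, flow R N u t = flow R N v t := fun t ht =>
  Finset.sum_congr rfl fun k _ => iter_congr R h k t ht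

theorem ctl_int {r : ℕ} (u : Ctl r) : IntegrableOn (u : ℝ → EE r) (Ioc 0 1) :=
  (Lp.memLp u).integrable one_le_two

/-- The extension of a control by zero. -/
theorem ext_memLp {r : ℕ} (u : Ctl r) :
    MemLp ((Ioc (0 : ℝ) 1).indicator (u : ℝ → EE r)) 2 volume :=
  (memLp_indicator_iff_restrict measurableSet_Ioc).2 (Lp.memLp u)

/-- Part one: concatenation. -/
theorem conc1 {r : ℕ} {A : Type} [NormedRing A] [NormedAlgebra ℝ A] [CompleteSpace A]
    (hflow : FlowStatement) (hresc : RescStatement) (R : EE r →L[ℝ] A) (N : ℕ) (hN : Nil R N)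
    (u v : Ctl r) : ∃ w : Ctl r, ∀ t ∈ Icc (0 : ℝ) 1,
      flow R N w (t / 2) = flow R N u t ∧
      flow R N w ((1 + t) / 2) = flow R N u 1 * flow R N v t := by
  set u' := (Ioc (0 : ℝ) 1).indicator (u : ℝ → EE r) with hu'
  set v' := (Ioc (0 : ℝ) 1).indicator (v : ℝ → EE r) with hv'
  set w0 : ℝ → EE r := fun t => (2 : ℝ) • u' (0 + 2 * t) + (2 : ℝ) • v' (-1 + 2 * t) with hw0
  have hw0m : MemLp w0 2 volume :=
    ((memLp_affine (ext_memLp u) 0 2 two_ne_zero).const_smul (2 : ℝ)).add
      ((memLp_affine (ext_memLp v) (-1) 2 two_ne_zero).const_smul (2 : ℝ))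
  have hw0r : MemLp w0 2 (volume.restrict (Ioc (0 : ℝ) 1)) := hw0m.restrict _
  refine ⟨hw0r.toLp w0, ?_⟩
  set w : Ctl r := hw0r.toLp w0 with hw
  have hwae : (w : ℝ → EE r) =ᵐ[volume.restrict (Ioc (0 : ℝ) 1)] w0 := hw0r.coeFn_toLp
  have hwint := ctl_int w
  have hwz : flow R N w 0 = 1 := by
    have h := (hflow r A R N hN w hwint).2 0 ⟨le_rfl, zero_le_one⟩
    simpa using h
  -- the two halves
  have e1 : (fun t => ((1 / 2 : ℝ) - 0) • w (0 + ((1 / 2 : ℝ) - 0) * t))
      =ᵐ[volume.restrict (Ioc (0 : ℝ) 1)] u := by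
    have hq : Measure.QuasiMeasurePreserving (fun t : ℝ => 0 + ((1 / 2 : ℝ) - 0) * t)
        (volume.restrict (Ioc (0 : ℝ) 1)) (volume.restrict (Ioc (0 : ℝ) 1)) := by
      apply (qmp 0 ((1 / 2 : ℝ) - 0) (by norm_num)).restrict
      intro t ht
      constructor
      · have := ht.1
        show (0 : ℝ) < 0 + ((1 / 2 : ℝ) - 0) * t
        linarith
      · have := ht.2
        show 0 + ((1 / 2 : ℝ) - 0) * t ≤ (1 : ℝ)
        have h1 := ht.1
        linarith
    have h2 := hq.ae_eq hwae
    filter_upwards [h2, ae_restrict_mem (measurableSet_Ioc (a := (0 : ℝ)) (b := 1))] with t h3 ht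
    have h3' : w (0 + ((1 / 2 : ℝ) - 0) * t) = w0 (0 + ((1 / 2 : ℝ) - 0) * t) := h3
    rw [h3']
    have h4 : (0 : ℝ) + 2 * (0 + ((1 / 2 : ℝ) - 0) * t) = t := by ring
    have h5 : (-1 : ℝ) + 2 * (0 + ((1 / 2 : ℝ) - 0) * t) = t - 1 := by ring
    have h6 : v' (t - 1) = 0 := by
      rw [hv']
      apply indicator_of_notMem
      intro h
      have := h.1
      have := ht.2
      linarith
    have h7 : u' t = u t := by
      rw [hu']
      exact indicator_of_mem ht _
    simp only [hw0]
    rw [h4, h5, h6, h7, smul_zero, add_zero, smul_smul]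
    norm_num
  have e2 : (fun t => ((1 : ℝ) - 1 / 2) • w (1 / 2 + ((1 : ℝ) - 1 / 2) * t))
      =ᵐ[volume.restrict (Ioc (0 : ℝ) 1)] v := by
    have hq : Measure.QuasiMeasurePreserving (fun t : ℝ => 1 / 2 + ((1 : ℝ) - 1 / 2) * t)
        (volume.restrict (Ioc (0 : ℝ) 1)) (volume.restrict (Ioc (0 : ℝ) 1)) := by
      apply (qmp (1 / 2) ((1 : ℝ) - 1 / 2) (by norm_num)).restrict
      intro t ht
      constructor
      · have := ht.1
        show (0 : ℝ) < 1 / 2 + ((1 : ℝ) - 1 / 2) * t
        linarith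
      · have := ht.2
        show 1 / 2 + ((1 : ℝ) - 1 / 2) * t ≤ (1 : ℝ)
        linarith
    have h2 := hq.ae_eq hwae
    filter_upwards [h2, ae_restrict_mem (measurableSet_Ioc (a := (0 : ℝ)) (b := 1))] with t h3 ht
    have h3' : w (1 / 2 + ((1 : ℝ) - 1 / 2) * t) = w0 (1 / 2 + ((1 : ℝ) - 1 / 2) * t) := h3
    rw [h3']
    have h4 : (0 : ℝ) + 2 * (1 / 2 + ((1 : ℝ) - 1 / 2) * t) = 1 + t := by ring
    have h5 : (-1 : ℝ) + 2 * (1 / 2 + ((1 : ℝ) - 1 / 2) * t) = t := by ring
    have h6 : u' (1 + t) = 0 := by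
      rw [hu']
      apply indicator_of_notMem
      intro h
      have := h.2
      have := ht.1
      linarith
    have h7 : v' t = v t := by
      rw [hv']
      exact indicator_of_mem ht _
    simp only [hw0]
    rw [h4, h5, h6, h7, smul_zero, zero_add, smul_smul]
    norm_num
  have f1 : ∀ t ∈ Icc (0 : ℝ) 1, flow R N w (t / 2) = flow R N u t := by
    intro t ht
    have h := (hresc r A R N hN w hwint 0 (1 / 2) le_rfl (by norm_num) (by norm_num)).2 t ht
    rw [hwz, one_mul, flow_congr R N e1 t ht] at h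
    rw [h]
    congr 1
    ring
  intro t ht
  refine ⟨f1 t ht, ?_⟩
  have h := (hresc r A R N hN w hwint (1 / 2) 1 (by norm_num) (by norm_num) le_rfl).2 t ht
  rw [flow_congr R N e2 t ht] at h
  rw [← f1 1 ⟨zero_le_one, le_rfl⟩, h]
  congr 1
  ring

/-- Part two: reversal. -/
theorem conc2 {r : ℕ} {A : Type} [NormedRing A] [NormedAlgebra ℝ A] [CompleteSpace A]
    (hflow : FlowStatement) (huniq : UniqStatement) (hinv : InvStatement) (R : EE r →L[ℝ] A)
    (N : ℕ) (hN : Nil R N) (u : Ctl r) : ∃ w : Ctl r, flow R N w 1 * flow R N u 1 = 1 := by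
  set u' := (Ioc (0 : ℝ) 1).indicator (u : ℝ → EE r) with hu'
  set w0 : ℝ → EE r := fun t => (-1 : ℝ) • u' (1 + -1 * t) with hw0
  have hw0m : MemLp w0 2 volume :=
    (memLp_affine (ext_memLp u) 1 (-1) (by norm_num)).const_smul (-1 : ℝ)
  have hw0r : MemLp w0 2 (volume.restrict (Ioc (0 : ℝ) 1)) := hw0m.restrict _
  refine ⟨hw0r.toLp w0, ?_⟩
  set w : Ctl r := hw0r.toLp w0 with hw
  have hwae : (w : ℝ → EE r) =ᵐ[volume.restrict (Ioc (0 : ℝ) 1)] w0 := hw0r.coeFn_toLp
  have hwint := ctl_int w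
  have huint := ctl_int u
  obtain ⟨hGc, hG⟩ := hflow r A R N hN u huint
  obtain ⟨hFc, hF⟩ := hflow r A R N hN w hwint
  obtain ⟨L, hLc, hL⟩ := hinv r A R N hN u huint
  set G : ℝ → A := flow R N u with hGdef
  have hmem1 : (1 : ℝ) ∈ Icc (0 : ℝ) 1 := ⟨zero_le_one, le_rfl⟩
  have hG0 : G 0 = 1 := by
    have h := hG 0 ⟨le_rfl, zero_le_one⟩
    simpa using h
  have hL1 := hL 1 hmem1
  -- integrability
  have hGRint : IntervalIntegrable (fun s => G s * R (u s)) volume 0 1 := by
    rw [intervalIntegrable_iff_integrableOn_Ioc_of_le zero_le_one]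
    have hR : IntegrableOn (fun s => R (u s)) (Ioc 0 1) := R.integrable_comp huint
    have hc : ContinuousOn G (Icc 0 1) := hGc
    exact (IntegrableOn.continuousOn_mul hc
      ((integrableOn_Icc_iff_integrableOn_Ioc).2 hR) isCompact_Icc).mono_set Ioc_subset_Icc_self
  -- the candidate
  set Y : ℝ → A := fun t => L 1 * G (1 - t) with hY
  have hYc : ContinuousOn Y (Icc 0 1) := by
    apply ContinuousOn.mul continuousOn_const
    apply hGc.comp (by fun_prop)
    intro t ht
    exact ⟨by linarith [ht.2], by linarith [ht.1]⟩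
  have hYeq : ∀ t ∈ Icc (0 : ℝ) 1, Y t = 1 + ∫ s in (0 : ℝ)..t, Y s * R (w s) := by
    intro t ht
    have ht' : (1 - t) ∈ Icc (0 : ℝ) 1 := ⟨by linarith [ht.2], by linarith [ht.1]⟩
    have i1 : IntervalIntegrable (fun s => G s * R (u s)) volume 0 (1 - t) :=
      hGRint.mono_set (by
        rw [uIcc_of_le ht'.1, uIcc_of_le zero_le_one]
        exact Icc_subset_Icc le_rfl ht'.2)
    have i2 : IntervalIntegrable (fun s => G s * R (u s)) volume (1 - t) 1 :=
      hGRint.mono_set (by
        rw [uIcc_of_le ht'.2, uIcc_of_le zero_le_one]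
        exact Icc_subset_Icc ht'.1 le_rfl)
    have h1 : G 1 = G (1 - t) + ∫ s in (1 - t)..1, G s * R (u s) := by
      rw [hG 1 hmem1, hG (1 - t) ht', add_assoc,
        intervalIntegral.integral_add_adjacent_intervals i1 i2]
    have h2 : ∫ s in (1 - t)..1, G s * R (u s) = ∫ s in (0 : ℝ)..t, G (1 - s) * R (u (1 - s)) := by
      rw [intervalIntegral.integral_comp_sub_left (fun s => G s * R (u s)) 1]
      norm_num
    have h3 : ∫ s in (0 : ℝ)..t, Y s * R (w s) =
        -(L 1 * ∫ s in (0 : ℝ)..t, G (1 - s) * R (u (1 - s))) := by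
      have i3 : IntervalIntegrable (fun s => G (1 - s) * R (u (1 - s))) volume 0 t := by
        have h := (i2.comp_sub_left 1).symm
        simpa using h
      have i4 := (ContinuousLinearMap.mul ℝ A (L 1)).intervalIntegral_comp_comm i3
      simp only [ContinuousLinearMap.mul_apply'] at i4
      rw [← i4, ← intervalIntegral.integral_neg]
      apply intervalIntegral.integral_congr_ae
      have h' := (ae_restrict_iff' (measurableSet_Ioc (a := (0 : ℝ)) (b := 1))).1 hwae
      have hne : ∀ᵐ s : ℝ ∂volume, s ≠ 1 := by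
        simp [ae_iff, measure_singleton]
      filter_upwards [h', hne] with s hs hs1 hst
      rw [uIoc_of_le ht.1] at hst
      have hs2 : s ∈ Ioc (0 : ℝ) 1 := ⟨hst.1, hst.2.trans ht.2⟩
      rw [hs hs2]
      have h4 : (1 : ℝ) + -1 * s = 1 - s := by ring
      have h5 : u' (1 - s) = u (1 - s) := by
        rw [hu']
        apply indicator_of_mem
        refine ⟨?_, by linarith [hs2.1]⟩
        have := lt_of_le_of_ne hs2.2 hs1
        linarith
      simp only [hw0, hY]
      rw [h4, h5]
      simp [mul_assoc]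
    rw [h3, ← h2]
    have h6 : ∫ s in (1 - t)..1, G s * R (u s) = G 1 - G (1 - t) := by rw [h1]; abel
    rw [h6, mul_sub, hL1.2.1]
    simp only [hY]
    abel
  have hz := huniq A (fun s => R (w s)) (fun t => Y t - flow R N w t) (R.integrable_comp hwint)
    (hYc.sub hFc) (Or.inl (by
      intro t ht
      have iY : IntervalIntegrable (fun s => Y s * R (w s)) volume 0 t := by
        rw [intervalIntegrable_iff_integrableOn_Ioc_of_le ht.1]
        have hR : IntegrableOn (fun s => R (w s)) (Ioc 0 1) := R.integrable_comp hwint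
        exact (IntegrableOn.continuousOn_mul hYc
          ((integrableOn_Icc_iff_integrableOn_Ioc).2 hR) isCompact_Icc).mono_set
            ((Ioc_subset_Ioc_right ht.2).trans Ioc_subset_Icc_self)
      have iF : IntervalIntegrable (fun s => flow R N w s * R (w s)) volume 0 t := by
        rw [intervalIntegrable_iff_integrableOn_Ioc_of_le ht.1]
        have hR : IntegrableOn (fun s => R (w s)) (Ioc 0 1) := R.integrable_comp hwint
        exact (IntegrableOn.continuousOn_mul hFc
          ((integrableOn_Icc_iff_integrableOn_Ioc).2 hR) isCompact_Icc).mono_set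
            ((Ioc_subset_Ioc_right ht.2).trans Ioc_subset_Icc_self)
      simp only [sub_mul]
      rw [intervalIntegral.integral_sub iY iF, hYeq t ht, hF t ht]
      abel))
  have h1 : Y 1 = flow R N w 1 := sub_eq_zero.1 (hz 1 hmem1)
  rw [← h1]
  simp only [hY, sub_self]
  rw [hG0, mul_one]
  exact hL1.2.1

/-- CONC. -/
theorem conc (g : Type) [NormedAddCommGroup g] [NormedSpace ℝ g] [FiniteDimensional ℝ g] (r : ℕ)
    (hflow : FlowStatement) (huniq : UniqStatement) (hinv : InvStatement) (hresc : RescStatement)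
    (hnilp : NilpStatement g r) : ConcStatement g r := by
  intro C
  have : CompleteSpace g := FiniteDimensional.complete ℝ g
  have hN := (hnilp C).1
  exact ⟨fun u v => conc1 hflow hresc C.R (C.s + 1) hN u v,
    fun u => conc2 hflow huniq hinv C.R (C.s + 1) hN u⟩

end Pool.Agent.CutLoci.H82
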